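import Mathlib
import Pool.Agent.H.MP_ff738c_co.C

namespace Pool.Agent.Results.MP_be5c27_co.Diagonal

open PowerSeries

noncomputable def F : PowerSeries (ZMod 2) := mk fun n => ((Nat.digits 2 n).sum : ZMod 2)

noncomputable def H (G : PowerSeries (ZMod 2)) (p n : ℕ) : ℤ :=
  (Matrix.of fun i j : Fin n => ((coeff (p + i + j + 1) G).val : ℤ)).det

theorem result : (∃ G : PowerSeries (ZMod 2), constantCoeff G = 0 ∧ F.subst G = X) ∧
    ∀ G : PowerSeries (ZMod 2), constantCoeff G = 0 → F.subst G = X → ∀ n : ℕ, 1 ≤ n →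
      ((∃ S : Finset ℕ, ∑ k ∈ S, 4 ^ k = n) → H G n n = 1) ∧
      ((¬ ∃ S : Finset ℕ, ∑ k ∈ S, 4 ^ k = n) → H G n n = 0) := by
  refine ⟨Pool.Agent.H.MP_ff738c_co.G_exists, fun G h0 hG n _ => ?_⟩
  rw [H, Pool.Agent.H.MP_ff738c_co.det_eq G h0 hG, Pool.Agent.H.MP_ff738c_co.diag]
  exact ⟨fun h => if_pos h, fun h => if_neg h⟩

end Pool.Agent.Results.MP_be5c27_co.Diagonal
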